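import Pool.Agent.U115.GD.Stm2
import Pool.Agent.Y362.CQ.FEW

/-!
# GD-JFEW: few sets have few large split primes on which a product of primes is not a square
(helper410; after the files of helper362 in projects CQ and JQ)
-/

set_option autoImplicit false

open scoped Classical

namespace Pool.Agent.U410.GD

open Finset Filter
open Pool.Agent.Y703.CX (sm la eL zz S_SIE)
open Pool.Agent.Y703.CQ (nr)
open Pool.Agent.U115.GD
open Pool.Agent.Y495.CX.Few (PN euler prod_pos' le_of_mem_prod mert eL_tendsto log_small zz_ge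
  loglog_zz rpow_eq)
open Pool.Agent.Y362.CQ (moment)

lemma SS_mem {G : Cfg} {X : ℕ} {S : Finset ℕ} (h : S ∈ SS G X) :
    (∀ p ∈ S, Sp G p ∨ In G p) ∧ ∏ p ∈ S, p ≤ X := by
  unfold SS at h
  rw [mem_filter] at h
  exact ⟨h.2.1.1, h.2.2⟩

/-- sets with many small primes -/
lemma part1 (G : Cfg) (c : ℝ) (hc : 0 < c) : ∃ C : ℝ, 0 ≤ C ∧ ∀ᶠ X : ℕ in atTop,
    (((SS G X).filter fun S => c * eL X < ((sm (zz X) S).card : ℝ)).card : ℝ) ≤
      C * X * Real.exp (-eL X) := by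
  obtain ⟨C, hC0, hC⟩ := mert
  set κ : ℝ := Real.exp (2 / c) with hκ
  have κ0 : 0 < κ := Real.exp_pos _
  refine ⟨Real.exp (κ * C), (Real.exp_pos _).le, ?_⟩
  filter_upwards [eL_tendsto.eventually (log_small (3 * κ) 1 (by norm_num)),
    eL_tendsto.eventually (eventually_ge_atTop 2)] with X h1 h2
  have h3 := moment X (zz X) (SS G X)
    (fun S hS => ⟨fun p hp => pr_of ((SS_mem hS).1 p hp), (SS_mem hS).2⟩) κ κ0.le
  have h4 := hC (zz X) (zz_ge h2)
  have h5 := loglog_zz h2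
  have h6 : (((SS G X).filter fun S => c * eL X < ((sm (zz X) S).card : ℝ)).card : ℝ) *
      Real.exp (2 * eL X) ≤ ∑ S ∈ SS G X, κ ^ (sm (zz X) S).card := by
    rw [← nsmul_eq_mul, ← sum_const]
    refine le_trans ?_ (sum_le_sum_of_subset_of_nonneg
      (filter_subset (fun S => c * eL X < ((sm (zz X) S).card : ℝ)) (SS G X))
      fun S _ _ => by positivity)
    refine sum_le_sum fun S hS => ?_
    rw [mem_filter] at hS
    rw [hκ, ← Real.exp_nat_mul]
    apply Real.exp_le_exp.2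
    have e1 := mul_le_mul_of_nonneg_right hS.2.le (by positivity : (0 : ℝ) ≤ 2 / c)
    have e2 : c * eL X * (2 / c) = 2 * eL X := by
      field_simp
    linarith
  have h7 := h6.trans h3
  have h8 : κ * ∑ p ∈ PN (zz X), (1 : ℝ) / p ≤ κ * C + 1 * eL X := by
    have : κ * ∑ p ∈ PN (zz X), (1 : ℝ) / p ≤ κ * (3 * Real.log (eL X) + C) :=
      mul_le_mul_of_nonneg_left (by linarith) κ0.le
    nlinarith
  have h9 : (X : ℝ) * Real.exp (κ * ∑ p ∈ PN (zz X), (1 : ℝ) / p) ≤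
      X * (Real.exp (κ * C) * Real.exp (1 * eL X)) := by
    rw [← Real.exp_add]
    exact mul_le_mul_of_nonneg_left (Real.exp_le_exp.2 h8) (Nat.cast_nonneg _)
  have h10 := h7.trans h9
  have h11 : (Real.exp (κ * C) * X * Real.exp (-eL X)) * Real.exp (2 * eL X) =
      X * (Real.exp (κ * C) * Real.exp (1 * eL X)) := by
    have : Real.exp (1 * eL X) = Real.exp (-eL X) * Real.exp (2 * eL X) := by
      rw [← Real.exp_add]
      congr 1
      ring
    rw [this]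
    ring
  rw [← h11] at h10
  exact le_of_mul_le_mul_right h10 (Real.exp_pos _)

/-- Mertens' theorem for several classes -/
lemma mer_set (hm : S_MER) (Q : ℕ) (hQ : 0 < Q) (A : Finset ℕ)
    (hA : ∀ a ∈ A, Nat.Coprime a Q ∧ a % Q = a) :
    ∃ C : ℝ, 0 ≤ C ∧ ∀ y : ℕ, 3 ≤ y →
      ∑ p ∈ (PN y).filter (fun p => p % Q ∈ A), (1 : ℝ) / p ≤
        (A.card : ℝ) / (Nat.totient Q : ℝ) * Real.log (Real.log y) + C := by
  have h1 : ∀ a : ℕ, ∃ C : ℝ, Nat.Coprime a Q → ∀ y : ℕ, 3 ≤ y →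
      |∑ p ∈ (range (y + 1)).filter (fun p => p.Prime ∧ p % Q = a % Q), (1 : ℝ) / p -
        1 / (Nat.totient Q : ℝ) * Real.log (Real.log y)| ≤ C := by
    intro a
    by_cases h : Nat.Coprime a Q
    · obtain ⟨C, hC⟩ := hm Q a hQ h
      exact ⟨C, fun _ => hC⟩
    · exact ⟨0, fun h' => absurd h' h⟩
  choose c hc using h1
  refine ⟨∑ a ∈ A, |c a|, sum_nonneg fun a _ => abs_nonneg _, fun y hy => ?_⟩
  have h2 : ∀ p ∈ (PN y).filter (fun p => p % Q ∈ A), p % Q ∈ A := fun p hp =>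
    (mem_filter.1 hp).2
  rw [← sum_fiberwise_of_maps_to h2]
  have h3 : ∀ a ∈ A, ∑ p ∈ ((PN y).filter (fun p => p % Q ∈ A)).filter
      (fun p => p % Q = a), (1 : ℝ) / p ≤
        1 / (Nat.totient Q : ℝ) * Real.log (Real.log y) + |c a| := by
    intro a ha
    have h4 := (abs_le.1 (hc a (hA a ha).1 y hy)).2
    have h5 : ∑ p ∈ ((PN y).filter (fun p => p % Q ∈ A)).filter
        (fun p => p % Q = a), (1 : ℝ) / p ≤
        ∑ p ∈ (range (y + 1)).filter (fun p => p.Prime ∧ p % Q = a % Q), (1 : ℝ) / p := by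
      refine sum_le_sum_of_subset_of_nonneg ?_ fun p _ _ => by positivity
      intro p hp
      rw [mem_filter, mem_filter, mem_filter, mem_Icc] at hp
      rw [mem_filter, mem_range, (hA a ha).2]
      exact ⟨by omega, hp.1.1.2, hp.2⟩
    have h6 := le_abs_self (c a)
    linarith
  refine (sum_le_sum h3).trans (le_of_eq ?_)
  rw [sum_add_distrib, sum_const, nsmul_eq_mul]
  ring

/-- the reciprocals of the split primes -/
lemma mer_S (hm : S_MER) {G : Cfg} (hG : Ok G) : ∃ C : ℝ, 0 ≤ C ∧ ∀ y : ℕ, 3 ≤ y →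
    ∑ p ∈ (PN y).filter (Sp G), (1 : ℝ) / p ≤ da G * Real.log (Real.log y) + C := by
  obtain ⟨C, hC0, hC⟩ := mer_set hm G.Q hG.q0 (AA G) (by
    intro a ha
    unfold AA at ha
    rw [mem_filter, mem_range] at ha
    exact ⟨ha.2.1, Nat.mod_eq_of_lt ha.1⟩)
  refine ⟨C, hC0, fun y hy => ?_⟩
  unfold da
  refine le_trans ?_ (hC y hy)
  refine sum_le_sum_of_subset_of_nonneg ?_ fun p _ _ => by positivity
  intro p hp
  rw [mem_filter] at hp ⊢
  refine ⟨hp.1, ?_⟩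
  unfold AA
  rw [mem_filter, mem_range]
  refine ⟨Nat.mod_lt _ hG.q0, ?_, (hc_mod hG p).2 hp.2.2⟩
  have h1 := cop_of hG (Or.inl hp.2)
  rw [Nat.coprime_iff_gcd_eq_one, ← Nat.gcd_rec, Nat.gcd_comm]
  exact h1

/-- the reciprocals of the inert primes -/
lemma mer_I (hm : S_MER) {G : Cfg} (hG : Ok G) : ∃ C : ℝ, 0 ≤ C ∧ ∀ y : ℕ, 3 ≤ y →
    ∑ p ∈ (PN y).filter (In G), (1 : ℝ) / p ≤ db G * Real.log (Real.log y) + C := by
  obtain ⟨C, hC0, hC⟩ := mer_set hm G.Q hG.q0 G.B (by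
    intro a ha
    exact ⟨(hG.hB a ha).2.1, Nat.mod_eq_of_lt (hG.hB a ha).1⟩)
  refine ⟨C, hC0, fun y hy => ?_⟩
  unfold db
  refine le_trans ?_ (hC y hy)
  refine sum_le_sum_of_subset_of_nonneg ?_ fun p _ _ => by positivity
  intro p hp
  rw [mem_filter] at hp ⊢
  exact ⟨hp.1, hp.2.2⟩

/-- a family of sets of primes of the class with a condition on the large primes -/
noncomputable def LL (G : Cfg) (X : ℕ) (Q : Finset ℕ → Prop) : Finset (Finset ℕ) :=
  (range (X + 1)).powerset.filter fun S => (∀ p ∈ S, Sp G p ∨ In G p) ∧ ∏ p ∈ S, p ≤ X ∧ Q S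

lemma mem_LL {G : Cfg} {X : ℕ} {Q : Finset ℕ → Prop} {S : Finset ℕ} :
    S ∈ LL G X Q ↔ S ⊆ range (X + 1) ∧
      (∀ p ∈ S, Sp G p ∨ In G p) ∧ ∏ p ∈ S, p ≤ X ∧ Q S := by
  unfold LL
  rw [mem_filter, mem_powerset]

lemma LL_sub {G : Cfg} {X : ℕ} {Q : Finset ℕ → Prop} (hQ : ∀ S, Q S → ∀ T, T ⊆ S → Q T)
    {S T : Finset ℕ} (hS : S ∈ LL G X Q) (h : T ⊆ S) : T ∈ LL G X Q := by
  rw [mem_LL] at hS ⊢
  obtain ⟨a0, a1, a2, a3⟩ := hS
  refine ⟨h.trans a0, fun p hp => a1 p (h hp), ?_, hQ S a3 T h⟩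
  refine le_trans ?_ a2
  exact prod_le_prod_of_subset_of_one_le' h fun p hp _ => (pr_of (a1 p hp)).one_lt.le

lemma mem_LL_of {G : Cfg} {X : ℕ} {Q : Finset ℕ → Prop} {S : Finset ℕ}
    (hS : S ∈ SS G X) (hQ : Q S) : S ∈ LL G X Q := by
  obtain ⟨a1, a3⟩ := SS_mem hS
  rw [mem_LL]
  refine ⟨?_, a1, a3, hQ⟩
  intro p hp
  rw [mem_range]
  have := le_of_mem_prod (fun p hp => pr_of (a1 p hp)) a3 hp
  omega

/-- the split primes on which the product of `e` is not a square -/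
def BB (G : Cfg) (e : Finset ℕ) (p : ℕ) : Prop := Sp G p ∧ p ∉ e ∧ ∑ u ∈ e, nr p u ≠ 0

/-- the lower bound for the reciprocals -/
lemma mer_B (hm : S_JMER) {G : Cfg} (hG : Ok G) {e : Finset ℕ} (he : e.Nonempty)
    (hu : ∀ u ∈ e, u.Prime ∧ u ≠ 2 ∧ u ∉ G.L) : ∃ C : ℝ, 0 ≤ C ∧ ∀ y : ℕ, 3 ≤ y →
    da G / 2 * Real.log (Real.log y) - C ≤ ∑ p ∈ (PN y).filter (BB G e), (1 : ℝ) / p := by
  obtain ⟨C, hC⟩ := hm G e hG he hu
  refine ⟨|C|, abs_nonneg _, fun y hy => ?_⟩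
  have h1 := (abs_le.1 (hC y hy)).1
  have h2 := le_abs_self C
  have h3 : (range (y + 1)).filter (fun p => Sp G p ∧ p ∉ e ∧ ∑ u ∈ e, nr p u ≠ 0) =
      (PN y).filter (BB G e) := by
    ext p
    rw [mem_filter, mem_filter, mem_filter, mem_Icc, mem_range]
    constructor
    · rintro ⟨a, b⟩
      exact ⟨⟨⟨b.1.1.one_lt.le, by omega⟩, b.1.1⟩, b⟩
    · rintro ⟨a, b⟩
      exact ⟨by have := a.1.2; omega, b⟩
  rw [h3] at h1
  linarith

/-- the logarithmic density of a family -/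
lemma LLB_sum (G : Cfg) (e : Finset ℕ) (X z : ℕ) (Q : Finset ℕ → Prop) (w : ℕ → ℝ) (M : ℝ)
    (hw : ∀ p, 0 ≤ w p) (hM : 0 ≤ M) (h1w : ∀ S ∈ LL G X Q, 1 ≤ M * ∏ p ∈ S, w p)
    (hw1 : ∀ p, w p ≤ 1) (hB : ∀ p, BB G e p → z < p → w p ≤ 1 / 4) :
    ∑ S ∈ LL G X Q, (1 : ℝ) / ((∏ p ∈ S, p : ℕ) : ℝ) ≤ M *
      Real.exp (∑ p ∈ PN z, (1 : ℝ) / p + ∑ p ∈ (PN X).filter (Sp G), (1 : ℝ) / p +
        ∑ p ∈ (PN X).filter (In G), (1 : ℝ) / p -
        3 / 4 * ∑ p ∈ (PN X).filter (BB G e), (1 : ℝ) / p) := by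
  have h1 : ∀ S ∈ LL G X Q, (1 : ℝ) / ((∏ p ∈ S, p : ℕ) : ℝ) ≤
      M * ∏ p ∈ S, (w p * (1 / p)) := by
    intro S hS
    have h2 := h1w S hS
    have h3 : (0 : ℝ) ≤ ∏ p ∈ S, (1 : ℝ) / p := prod_nonneg fun p _ => by positivity
    have h4 : (1 : ℝ) / ((∏ p ∈ S, p : ℕ) : ℝ) = ∏ p ∈ S, (1 : ℝ) / p := by
      rw [prod_div_distrib, prod_const_one]
      push_cast
      rfl
    rw [h4, prod_mul_distrib]
    calc ∏ p ∈ S, (1 : ℝ) / p = 1 * ∏ p ∈ S, (1 : ℝ) / p := (one_mul _).symm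
      _ ≤ (M * ∏ p ∈ S, w p) * ∏ p ∈ S, (1 : ℝ) / p :=
          mul_le_mul_of_nonneg_right h2 h3
      _ = _ := by ring
  refine (sum_le_sum h1).trans ?_
  rw [← mul_sum]
  apply mul_le_mul_of_nonneg_left _ hM
  have hnn : ∀ p : ℕ, 0 ≤ w p * (1 / (p : ℝ)) := fun p => mul_nonneg (hw p) (by positivity)
  have h5 : ∑ S ∈ LL G X Q, ∏ p ∈ S, (w p * (1 / (p : ℝ))) ≤
      ∑ S ∈ ((PN X).filter fun p => Sp G p ∨ In G p).powerset, ∏ p ∈ S, (w p * (1 / (p : ℝ))) := by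
    refine sum_le_sum_of_subset_of_nonneg ?_ fun S _ _ => prod_nonneg fun p _ => hnn p
    intro S hS
    rw [mem_LL] at hS
    rw [mem_powerset]
    intro p hp
    have h6 := pr_of (hS.2.1 p hp)
    rw [mem_filter, mem_filter, mem_Icc]
    exact ⟨⟨⟨h6.one_lt.le, le_of_mem_prod (fun p hp => pr_of (hS.2.1 p hp)) hS.2.2.1 hp⟩, h6⟩,
      hS.2.1 p hp⟩
  refine h5.trans ((euler _ _ fun p _ => hnn p).trans ?_)
  apply Real.exp_le_exp.2
  have hmono : ∀ p : ℕ, 0 ≤ (if p ≤ z then (1 : ℝ) / p else 0) +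
      (if Sp G p then (1 : ℝ) / p else 0) + (if In G p then (1 : ℝ) / p else 0) -
        3 / 4 * (if BB G e p then (1 : ℝ) / p else 0) := by
    intro p
    have hp0 : (0 : ℝ) ≤ 1 / p := by positivity
    have e0 : (0 : ℝ) ≤ if p ≤ z then (1 : ℝ) / p else 0 := by
      split_ifs
      · exact hp0
      · exact le_refl _
    have e2 : (0 : ℝ) ≤ if In G p then (1 : ℝ) / p else 0 := by
      split_ifs
      · exact hp0
      · exact le_refl _
    have e3 : 3 / 4 * (if BB G e p then (1 : ℝ) / p else 0) ≤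
        if Sp G p then (1 : ℝ) / p else 0 := by
      by_cases hb : BB G e p
      · rw [if_pos hb, if_pos hb.1]
        linarith
      · rw [if_neg hb, mul_zero]
        split_ifs
        · exact hp0
        · exact le_refl _
    linarith
  have h6 : ∀ p ∈ (PN X).filter fun p => Sp G p ∨ In G p, w p * (1 / (p : ℝ)) ≤
      (if p ≤ z then (1 : ℝ) / p else 0) +
      (if Sp G p then (1 : ℝ) / p else 0) + (if In G p then (1 : ℝ) / p else 0) -
        3 / 4 * (if BB G e p then (1 : ℝ) / p else 0) := by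
    intro p hp
    have hp0 : (0 : ℝ) ≤ 1 / p := by positivity
    have e2 : (0 : ℝ) ≤ if In G p then (1 : ℝ) / p else 0 := by
      split_ifs
      · exact hp0
      · exact le_refl _
    have e0 : (0 : ℝ) ≤ if p ≤ z then (1 : ℝ) / p else 0 := by
      split_ifs
      · exact hp0
      · exact le_refl _
    have e1 : (0 : ℝ) ≤ if Sp G p then (1 : ℝ) / p else 0 := by
      split_ifs
      · exact hp0
      · exact le_refl _
    have hw' : w p * (1 / (p : ℝ)) ≤ 1 / p := by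
      have := mul_le_mul_of_nonneg_right (hw1 p) hp0
      linarith
    by_cases hb : BB G e p
    · rw [if_pos hb.1, if_pos hb]
      by_cases hpz : p ≤ z
      · rw [if_pos hpz]
        linarith
      · have := mul_le_mul_of_nonneg_right (hB p hb (not_le.1 hpz)) hp0
        linarith
    · rw [if_neg hb, mul_zero, sub_zero]
      rcases (mem_filter.1 hp).2 with h | h
      · rw [if_pos h]
        linarith
      · rw [if_pos h]
        linarith
  refine (sum_le_sum h6).trans ?_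
  refine (sum_le_sum_of_subset_of_nonneg (filter_subset _ _) fun p _ _ => hmono p).trans ?_
  rw [sum_sub_distrib, sum_add_distrib, sum_add_distrib, ← mul_sum, ← sum_filter, ← sum_filter,
    ← sum_filter, ← sum_filter]
  gcongr
  intro p hp
  rw [mem_filter, mem_filter, mem_Icc] at hp
  rw [mem_filter, mem_Icc]
  exact ⟨⟨hp.1.1.1, hp.2⟩, hp.1.2⟩

/-- the condition on the large primes -/
def QQ (G : Cfg) (e : Finset ℕ) (X : ℕ) (S : Finset ℕ) : Prop :=
  ((la (zz X) S).filter fun p => Hc G p ∧ ∑ u ∈ e, nr p u ≠ 0).card ≤ ⌊da G / 16 * eL X⌋₊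

lemma QQ_sub {G : Cfg} {e : Finset ℕ} {X : ℕ} : ∀ S, QQ G e X S → ∀ T, T ⊆ S → QQ G e X T := by
  intro S h T hT
  refine (card_le_card (filter_subset_filter _ ?_)).trans h
  unfold la
  exact filter_subset_filter _ hT

/-- sets with few large primes of the class -/
lemma part4 (hs : S_SIE) (hm : S_MER) (hj : S_JMER) {G : Cfg} (hG : Ok G) (ha : 0 < da G)
    {e : Finset ℕ} (he : e.Nonempty) (hu : ∀ u ∈ e, u.Prime ∧ u ≠ 2 ∧ u ∉ G.L) {r : ℝ}
    (hr : r = -1 + dl G - da G / 4) : ∃ C : ℝ, 0 ≤ C ∧ ∀ᶠ X : ℕ in atTop,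
    ((LL G X (QQ G e X)).card : ℝ) ≤ C * X * Real.exp (r * eL X) := by
  obtain ⟨C, hC0, hC⟩ := mert
  obtain ⟨C₁, hC₁0, hC₁⟩ := mer_S hm hG
  obtain ⟨C₂, hC₂0, hC₂⟩ := mer_I hm hG
  obtain ⟨C₃, hC₃0, hC₃⟩ := mer_B hj hG he hu
  obtain ⟨C', hC'1, hC'⟩ := hs
  set a : ℝ := da G with haG
  have hl4 : Real.log 4 / 16 < 3 / 8 - 1 / 4 := by
    have h1 : (4 : ℝ) = 2 ^ 2 := by norm_num
    rw [h1, Real.log_pow]
    have := Real.log_two_lt_d9
    push_cast
    linarith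
  refine ⟨C' * Real.exp (C + C₁ + C₂ + C₃), by positivity, ?_⟩
  set η : ℝ := a * (3 / 8 - 1 / 4 - Real.log 4 / 16) with hη
  have hε : 0 < η := mul_pos ha (by linarith)
  filter_upwards [eL_tendsto.eventually (log_small 3 _ hε),
    eL_tendsto.eventually (eventually_ge_atTop 2), eventually_ge_atTop 3] with X h1 h2 h3
  set l := eL X with hl
  have h4 := hC (zz X) (zz_ge h2)
  have h5 := loglog_zz h2
  have h6 := hC₁ X h3
  have h6' := hC₂ X h3
  have h6'' := hC₃ X h3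
  rw [← hl] at h5
  change _ ≤ a * l + C₁ at h6
  change _ ≤ db G * l + C₂ at h6'
  change a / 2 * l - C₃ ≤ _ at h6''
  have h7 := hC' X (LL G X (QQ G e X)) (by omega)
    (fun S hS => ⟨fun p hp => pr_of ((mem_LL.1 hS).2.1 p hp), (mem_LL.1 hS).2.2.1⟩)
    (fun S hS T hT => LL_sub QQ_sub hS hT)
  have h1w : ∀ S ∈ LL G X (QQ G e X), 1 ≤ Real.exp (Real.log 4 * (a / 16 * l)) *
      ∏ p ∈ S, (if ¬ p ≤ zz X ∧ (Hc G p ∧ ∑ u ∈ e, nr p u ≠ 0) then (1 / 4 : ℝ) else 1) := by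
    intro S hS
    rw [mem_LL] at hS
    rw [← prod_filter, prod_const]
    have g1 : (S.filter fun p => ¬ p ≤ zz X ∧ (Hc G p ∧ ∑ u ∈ e, nr p u ≠ 0)).card ≤
        ⌊a / 16 * l⌋₊ := by
      refine (card_le_card ?_).trans hS.2.2.2
      intro p hp
      rw [mem_filter] at hp
      unfold la
      rw [mem_filter, mem_filter]
      exact ⟨⟨hp.1, hp.2.1⟩, hp.2.2⟩
    have g2 : (1 / 4 : ℝ) ^ ⌊a / 16 * l⌋₊ ≤ (1 / 4 : ℝ) ^
        (S.filter fun p => ¬ p ≤ zz X ∧ (Hc G p ∧ ∑ u ∈ e, nr p u ≠ 0)).card :=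
      pow_le_pow_of_le_one (by norm_num) (by norm_num) g1
    have g3 : Real.exp (-(Real.log 4 * (a / 16 * l))) ≤ (1 / 4 : ℝ) ^ ⌊a / 16 * l⌋₊ := by
      have e1 : (1 / 4 : ℝ) = Real.exp (-Real.log 4) := by
        rw [Real.exp_neg, Real.exp_log (by norm_num)]
        norm_num
      rw [e1, ← Real.exp_nat_mul]
      apply Real.exp_le_exp.2
      have e2 : ((⌊a / 16 * l⌋₊ : ℕ) : ℝ) ≤ a / 16 * l := Nat.floor_le (by positivity)
      have e4 : 0 ≤ Real.log 4 := Real.log_nonneg (by norm_num)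
      have e5 := mul_le_mul_of_nonneg_right e2 e4
      linarith
    calc (1 : ℝ) = Real.exp (Real.log 4 * (a / 16 * l)) *
          Real.exp (-(Real.log 4 * (a / 16 * l))) := by
          rw [← Real.exp_add, add_neg_cancel, Real.exp_zero]
      _ ≤ _ := mul_le_mul_of_nonneg_left (g3.trans g2) (Real.exp_pos _).le
  have h8 := LLB_sum G e X (zz X) (QQ G e X)
    (fun p => if ¬ p ≤ zz X ∧ (Hc G p ∧ ∑ u ∈ e, nr p u ≠ 0) then (1 / 4 : ℝ) else 1)
    (Real.exp (Real.log 4 * (a / 16 * l)))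
    (fun p => by split_ifs <;> norm_num) (Real.exp_pos _).le h1w
    (fun p => by split_ifs <;> norm_num)
    (fun p hb hz => by
      rw [if_pos ⟨not_le.2 hz, hb.1.2, hb.2.2⟩])
  have hlX : Real.log X = Real.exp l := by
    have := rpow_eq (X := X) h2 1
    rwa [Real.rpow_one, one_mul] at this
  rw [hlX] at h7
  have h12 : Real.exp (Real.log 4 * (a / 16 * l)) * Real.exp (∑ p ∈ PN (zz X), (1 : ℝ) / p +
      ∑ p ∈ (PN X).filter (Sp G), (1 : ℝ) / p + ∑ p ∈ (PN X).filter (In G), (1 : ℝ) / p -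
        3 / 4 * ∑ p ∈ (PN X).filter (BB G e), (1 : ℝ) / p) ≤
      Real.exp (C + C₁ + C₂ + C₃) * Real.exp ((r + 1) * l) := by
    rw [← Real.exp_add, ← Real.exp_add]
    apply Real.exp_le_exp.2
    have e1 : ∑ p ∈ PN (zz X), (1 : ℝ) / p ≤ 3 * Real.log l + C := by linarith
    have e2 : (r + 1) * l = a * l + db G * l - a / 4 * l := by
      rw [hr]
      unfold dl
      ring
    have e3 : η * l = a * (3 / 8 - 1 / 4) * l - Real.log 4 * (a / 16 * l) := by rw [hη]; ring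
    linarith
  have h13 : ((LL G X (QQ G e X)).card : ℝ) * Real.exp l ≤
      C' * X * (Real.exp (C + C₁ + C₂ + C₃) * Real.exp ((r + 1) * l)) := by
    refine h7.trans ?_
    exact mul_le_mul_of_nonneg_left (h8.trans h12) (by positivity)
  have h14 : (C' * Real.exp (C + C₁ + C₂ + C₃) * X * Real.exp (r * l)) * Real.exp l =
      C' * X * (Real.exp (C + C₁ + C₂ + C₃) * Real.exp ((r + 1) * l)) := by
    have : Real.exp ((r + 1) * l) = Real.exp (r * l) * Real.exp l := by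
      rw [← Real.exp_add]
      congr 1
      ring
    rw [this]
    ring
  rw [← h14] at h13
  exact le_of_mul_le_mul_right h13 (Real.exp_pos _)

theorem t_JFEW : S_JFEW := by
  intro hs hm hd hj G e R hG he hu
  have ha : 0 < da G := lt_of_lt_of_le (by positivity) (hd G hG)
  have hb : 0 ≤ db G := by
    unfold db
    positivity
  set r : ℝ := -1 + dl G - da G / 4 with hr
  have hr1 : -1 ≤ r := by
    rw [hr]
    unfold dl
    linarith
  obtain ⟨C₁, hC₁, h1⟩ := part1 G (da G / 64) (by positivity)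
  obtain ⟨C₃, hC₃, h3⟩ := part4 hs hm hj hG ha he hu (r := r) hr
  have h4 := (h1.and h3).and
    (eL_tendsto.eventually (eventually_ge_atTop (max 2 (32 * (R : ℝ) / da G))))
  rw [eventually_atTop] at h4
  obtain ⟨X₀, hX₀⟩ := h4
  refine ⟨da G / 4, C₁ + C₃, X₀, by positivity, fun X hX => ?_⟩
  obtain ⟨⟨h5, h7⟩, h8⟩ := hX₀ X hX
  have h9 : 2 ≤ eL X := (le_max_left _ _).trans h8
  have h10 : 32 * (R : ℝ) / da G ≤ eL X := (le_max_right _ _).trans h8
  have h10' : 32 * (R : ℝ) ≤ eL X * da G := (div_le_iff₀ ha).1 h10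
  rw [rpow_eq h9]
  have h11 : ((SS G X).filter fun S => ((la (zz X) S).filter fun p => Hc G p ∧
      ∑ u ∈ e, nr p u ≠ 0).card < 2 * (sm (zz X) S).card + R) ⊆
      ((SS G X).filter fun S => da G / 64 * eL X < ((sm (zz X) S).card : ℝ)) ∪
        LL G X (QQ G e X) := by
    intro S hS
    rw [mem_filter] at hS
    rw [mem_union, mem_filter]
    by_cases hc : da G / 64 * eL X < ((sm (zz X) S).card : ℝ)
    · exact Or.inl ⟨hS.1, hc⟩
    · right
      rw [not_lt] at hc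
      refine mem_LL_of hS.1 ?_
      apply Nat.le_floor
      have h12 : ((((la (zz X) S).filter fun p => Hc G p ∧
          ∑ u ∈ e, nr p u ≠ 0).card : ℕ) : ℝ) ≤ 2 * ((sm (zz X) S).card : ℝ) + R := by
        exact_mod_cast hS.2.le
      linarith
  have h12 : (((SS G X).filter fun S => ((la (zz X) S).filter fun p => Hc G p ∧
      ∑ u ∈ e, nr p u ≠ 0).card < 2 * (sm (zz X) S).card + R).card : ℝ) ≤
      (((SS G X).filter fun S => da G / 64 * eL X < ((sm (zz X) S).card : ℝ)).card : ℝ) +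
      ((LL G X (QQ G e X)).card : ℝ) := by
    exact_mod_cast (card_le_card h11).trans (card_union_le _ _)
  have h13 : C₁ * X * Real.exp (-eL X) ≤ C₁ * X * Real.exp (r * eL X) := by
    apply mul_le_mul_of_nonneg_left _ (by positivity)
    apply Real.exp_le_exp.2
    nlinarith
  refine h12.trans ((add_le_add (h5.trans h13) h7).trans (le_of_eq ?_))
  ring

end Pool.Agent.U410.GD
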